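import Pool.Agent.Lib_helper99.NZ.D
import Pool.Agent.Lib_helper92.PVF.FIN

/-!
# NZ, part E: the full variance for almost all prime moduli, at special `X`
-/

set_option autoImplicit false

namespace Pool.Agent.NZ

open Finset Filter
open scoped Topology ArithmeticFunction.vonMangoldt

theorem cop_diff (N Q : ℕ) (hQ : Q.Prime) :
    |∑ n ∈ (Icc 1 N).filter (fun n => Nat.Coprime n Q), Λ n - ∑ n ∈ Icc 1 N, Λ n| ≤
      (N / Q : ℕ) * Real.log N := by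
  have h1 := sum_filter_add_sum_filter_not (Icc 1 N) (fun n => Nat.Coprime n Q)
    (fun n => (Λ n : ℝ))
  have h2 : ∑ n ∈ (Icc 1 N).filter (fun n => Nat.Coprime n Q), Λ n - ∑ n ∈ Icc 1 N, Λ n =
      -∑ n ∈ (Icc 1 N).filter (fun n => ¬ Nat.Coprime n Q), (Λ n : ℝ) := by linarith
  rw [h2, abs_neg, abs_of_nonneg (sum_nonneg fun _ _ => ArithmeticFunction.vonMangoldt_nonneg)]
  have h3 : (Icc 1 N).filter (fun n => ¬ Nat.Coprime n Q) ⊆ (Ioc 0 N).filter (fun n => Q ∣ n) := by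
    intro n hn
    rw [mem_filter, mem_Icc] at hn
    rw [mem_filter, mem_Ioc]
    refine ⟨⟨by omega, hn.1.2⟩, ?_⟩
    by_contra h
    apply hn.2
    rw [Nat.coprime_comm]
    exact (Nat.Prime.coprime_iff_not_dvd hQ).2 h
  have h4 : ∑ n ∈ (Icc 1 N).filter (fun n => ¬ Nat.Coprime n Q), (Λ n : ℝ) ≤
      ∑ n ∈ (Ioc 0 N).filter (fun n => Q ∣ n), (Λ n : ℝ) :=
    sum_le_sum_of_subset_of_nonneg h3 fun _ _ _ => ArithmeticFunction.vonMangoldt_nonneg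
  refine h4.trans ?_
  have h5 : ∑ n ∈ (Ioc 0 N).filter (fun n => Q ∣ n), (Λ n : ℝ) ≤
      ∑ n ∈ (Ioc 0 N).filter (fun n => Q ∣ n), Real.log N := by
    refine sum_le_sum fun n hn => ?_
    rw [mem_filter, mem_Ioc] at hn
    refine ArithmeticFunction.vonMangoldt_le_log.trans ?_
    exact Real.log_le_log (by exact_mod_cast hn.1.1) (by exact_mod_cast hn.1.2)
  refine h5.trans ?_
  rw [sum_const, nsmul_eq_mul, Nat.Ioc_filter_dvd_card_eq_div]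

/-- The variance of all primes in arithmetic progressions, for almost all prime moduli in
`(Y, 2Y]`, at every large natural number `N` at which `|ψ(N) - N| ≤ N^{3/4}`. -/
theorem full_variance_at (ε : ℝ) (hε : 0 < ε) : ∃ C : ℝ, ∀ η : ℝ, 0 < η → ∃ Z₀ : ℝ, ∀ N : ℕ,
    Z₀ ≤ (N : ℝ) → |∑ n ∈ Icc 1 N, Λ n - N| ≤ (N : ℝ) ^ (3 / 4 : ℝ) →
    ∀ Y : ℝ, (N : ℝ) ^ (1 / 2 + ε) ≤ Y → Y ≤ N →
    ∑ Q ∈ (Icc 1 ⌊2 * Y⌋₊).filter (fun Q : ℕ => Q.Prime ∧ Y < Q),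
      |(∑ a ∈ (range Q).filter (fun a => Nat.Coprime a Q),
          ((∑ n ∈ (Icc 1 N).filter (fun n => n ≡ a [MOD Q]), Λ n) -
            (N : ℝ) / (Nat.totient Q : ℝ)) ^ 2) - N * Real.log Q|
      ≤ (C * Real.log (N / Y) + η * Real.log N) * N * (Y / Real.log Y) := by
  obtain ⟨C, hC⟩ := Pool.Agent.PV.fin ε hε
  refine ⟨C, fun η hη => ?_⟩
  obtain ⟨X₀, hX₀⟩ := hC (η / 2) (by positivity)
  have h1 : ∀ᶠ x : ℝ in atTop, Real.log x ≤ x ^ (1 / 8 : ℝ) := by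
    have := (isLittleO_log_rpow_atTop (show (0 : ℝ) < 1 / 8 by norm_num)).bound
      (c := 1) one_pos
    filter_upwards [this, eventually_ge_atTop (1 : ℝ)] with x hx h1
    rw [one_mul, Real.norm_of_nonneg (Real.log_nonneg h1), Real.norm_of_nonneg (by positivity)] at hx
    exact hx
  have h2 : ∀ᶠ x : ℝ in atTop, 32 / η < x ^ ε := (tendsto_rpow_atTop hε).eventually_gt_atTop _
  obtain ⟨X₁, hX₁⟩ := eventually_atTop.1 (h1.and (h2.and (eventually_ge_atTop (2 : ℝ))))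
  refine ⟨max X₀ X₁, fun N hN hN3 Y hY1 hY2 => ?_⟩
  have hXX0 : X₀ ≤ (N : ℝ) := (le_max_left _ _).trans hN
  have hXX1 : X₁ ≤ (N : ℝ) := (le_max_right _ _).trans hN
  obtain ⟨g1, g2, g3⟩ := hX₁ N hXX1
  have hN0 : (0 : ℝ) < N := by linarith
  have hNl : (1 : ℝ) ≤ N := by linarith
  have hmain := hX₀ N Y hXX0 hY1 hY2
  have hsq : (N : ℝ) ^ (1 / 2 : ℝ) ≤ Y := by
    refine le_trans ?_ hY1
    exact Real.rpow_le_rpow_of_exponent_le hNl (by linarith)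
  have hY1' : 1 < Y := by
    refine lt_of_lt_of_le ?_ hY1
    exact Real.one_lt_rpow (by linarith) (by positivity)
  have hY0 : 0 < Y := by linarith
  have hlY : 0 < Real.log Y := Real.log_pos hY1'
  have hlYN : Real.log Y ≤ Real.log N := Real.log_le_log hY0 hY2
  rw [Nat.floor_natCast] at hmain
  set A := (Icc 1 ⌊2 * Y⌋₊).filter (fun Q : ℕ => Q.Prime ∧ Y < Q) with hA
  -- the principal term
  have hterm : ∀ Q ∈ A, ((∑ n ∈ (Icc 1 N).filter (fun n => Nat.Coprime n Q), Λ n) - (N : ℝ)) ^ 2 /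
      (Nat.totient Q : ℝ) ≤ 8 * ((N : ℝ) * (N : ℝ) ^ (-ε)) := by
    intro Q hQ
    rw [hA, mem_filter] at hQ
    obtain ⟨_, hQp, hQY⟩ := hQ
    have hQ0 : (0 : ℝ) < Q := by linarith
    have h3 := cop_diff N Q hQp
    have h4 : ((N / Q : ℕ) : ℝ) ≤ (N : ℝ) ^ (1 / 2 : ℝ) := by
      refine Nat.cast_div_le.trans ?_
      rw [div_le_iff₀ hQ0]
      have h5 : (N : ℝ) = (N : ℝ) ^ (1 / 2 : ℝ) * (N : ℝ) ^ (1 / 2 : ℝ) := by
        rw [← Real.rpow_add hN0]; norm_num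
      nth_rewrite 1 [h5]
      gcongr
      linarith
    have h6 : (N / Q : ℕ) * Real.log N ≤ (N : ℝ) ^ (3 / 4 : ℝ) := by
      calc ((N / Q : ℕ) : ℝ) * Real.log N ≤ (N : ℝ) ^ (1 / 2 : ℝ) * (N : ℝ) ^ (1 / 8 : ℝ) := by
            gcongr
        _ = (N : ℝ) ^ (5 / 8 : ℝ) := by rw [← Real.rpow_add hN0]; norm_num
        _ ≤ _ := Real.rpow_le_rpow_of_exponent_le hNl (by norm_num)
    have h7 : |(∑ n ∈ (Icc 1 N).filter (fun n => Nat.Coprime n Q), Λ n) - (N : ℝ)| ≤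
        2 * (N : ℝ) ^ (3 / 4 : ℝ) := by
      calc _ = |(∑ n ∈ (Icc 1 N).filter (fun n => Nat.Coprime n Q), Λ n - ∑ n ∈ Icc 1 N, Λ n) +
            (∑ n ∈ Icc 1 N, Λ n - N)| := by ring_nf
        _ ≤ _ := abs_add_le _ _
        _ ≤ _ := by linarith
    have h8 : ((∑ n ∈ (Icc 1 N).filter (fun n => Nat.Coprime n Q), Λ n) - (N : ℝ)) ^ 2 ≤
        4 * (N : ℝ) ^ (3 / 2 : ℝ) := by
      have h9 := pow_le_pow_left₀ (abs_nonneg _) h7 2
      rw [sq_abs] at h9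
      refine h9.trans (le_of_eq ?_)
      have e1 : ((N : ℝ) ^ (3 / 4 : ℝ)) ^ 2 = (N : ℝ) ^ (3 / 2 : ℝ) := by
        rw [← Real.rpow_natCast, ← Real.rpow_mul hN0.le]
        norm_num
      rw [mul_pow, e1]
      norm_num
    have hφ : Y / 2 ≤ (Nat.totient Q : ℝ) := by
      rw [Nat.totient_prime hQp]
      have h10 : 1 ≤ Q := hQp.one_lt.le
      push_cast [Nat.cast_sub h10]
      have h11 : (2 : ℝ) ≤ Q := by exact_mod_cast hQp.two_le
      linarith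
    have hφ0 : (0 : ℝ) < Nat.totient Q := by linarith
    rw [div_le_iff₀ hφ0]
    refine h8.trans ?_
    have h12 : (N : ℝ) ^ (3 / 2 : ℝ) = (N : ℝ) * (N : ℝ) ^ (-ε) * (N : ℝ) ^ (1 / 2 + ε) := by
      rw [mul_assoc, ← Real.rpow_add hN0, ← Real.rpow_one_add' hN0.le (by
        ring_nf; norm_num)]
      congr 1
      ring
    rw [h12]
    have h13 : 0 ≤ (N : ℝ) * (N : ℝ) ^ (-ε) := by positivity
    nlinarith [mul_le_mul_of_nonneg_left (hY1.trans (by linarith : Y ≤ 2 * Nat.totient Q)) h13]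
  have hcard : (A.card : ℝ) ≤ 2 * Y := by
    have h3 : A.card ≤ (Icc 1 ⌊2 * Y⌋₊).card := card_filter_le _ _
    rw [Nat.card_Icc, Nat.add_sub_cancel] at h3
    have h4 : ((⌊2 * Y⌋₊ : ℕ) : ℝ) ≤ 2 * Y := Nat.floor_le (by positivity)
    have h5 : (A.card : ℝ) ≤ (⌊2 * Y⌋₊ : ℕ) := by exact_mod_cast h3
    linarith
  have hsum : ∑ Q ∈ A, ((∑ n ∈ (Icc 1 N).filter (fun n => Nat.Coprime n Q), Λ n) - (N : ℝ)) ^ 2 /
      (Nat.totient Q : ℝ) ≤ η / 2 * Real.log N * N * (Y / Real.log Y) := by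
    refine (sum_le_sum hterm).trans ?_
    rw [sum_const, nsmul_eq_mul]
    have h3 : (0 : ℝ) ≤ 8 * ((N : ℝ) * (N : ℝ) ^ (-ε)) := by positivity
    refine (mul_le_mul_of_nonneg_right hcard h3).trans ?_
    have h4 : (N : ℝ) ^ (-ε) ≤ η / 32 := by
      rw [Real.rpow_neg hN0.le]
      rw [inv_le_comm₀ (by positivity) (by positivity), inv_div]
      exact g2.le
    have h5 : Y ≤ Real.log N * (Y / Real.log Y) := by
      rw [mul_div_assoc', le_div_iff₀ hlY]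
      nlinarith
    calc 2 * Y * (8 * ((N : ℝ) * (N : ℝ) ^ (-ε))) ≤ 2 * Y * (8 * ((N : ℝ) * (η / 32))) := by gcongr
      _ = η / 2 * N * Y := by ring
      _ ≤ η / 2 * N * (Real.log N * (Y / Real.log Y)) := by gcongr
      _ = _ := by ring
  have htri : ∀ Q ∈ A, |(∑ a ∈ (range Q).filter (fun a => Nat.Coprime a Q),
          ((∑ n ∈ (Icc 1 N).filter (fun n => n ≡ a [MOD Q]), Λ n) -
            (N : ℝ) / (Nat.totient Q : ℝ)) ^ 2) - N * Real.log Q| ≤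
      |(∑ a ∈ (range Q).filter (fun a => Nat.Coprime a Q),
          ((∑ n ∈ (Icc 1 N).filter (fun n => n ≡ a [MOD Q]), Λ n) -
            (N : ℝ) / (Nat.totient Q : ℝ)) ^ 2) -
        ((∑ n ∈ (Icc 1 N).filter (fun n => Nat.Coprime n Q), Λ n) - (N : ℝ)) ^ 2 /
          (Nat.totient Q : ℝ) - N * Real.log Q| +
      ((∑ n ∈ (Icc 1 N).filter (fun n => Nat.Coprime n Q), Λ n) - (N : ℝ)) ^ 2 /
          (Nat.totient Q : ℝ) := by
    intro Q _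
    have h3 : (0 : ℝ) ≤ ((∑ n ∈ (Icc 1 N).filter (fun n => Nat.Coprime n Q), Λ n) - (N : ℝ)) ^ 2 /
          (Nat.totient Q : ℝ) := by positivity
    refine le_trans ?_ (add_le_add_right (abs_of_nonneg h3).le _)
    refine le_trans (le_of_eq ?_) (abs_add_le _ _)
    congr 1
    ring
  refine (sum_le_sum htri).trans ?_
  rw [sum_add_distrib]
  have hYl : 0 ≤ (N : ℝ) * (Y / Real.log Y) := by positivity
  calc _ ≤ (C * Real.log (N / Y) + η / 2 * Real.log N) * N * (Y / Real.log Y) +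
        η / 2 * Real.log N * N * (Y / Real.log Y) := add_le_add hmain hsum
    _ = _ := by ring

theorem full_variance (ε : ℝ) (hε : 0 < ε) : ∃ C : ℝ, ∀ η : ℝ, 0 < η → ∃ Z₀ : ℝ, ∀ Z : ℝ,
    Z₀ ≤ Z → ∃ X : ℝ, Z ≤ X ∧ X ≤ Z ^ (40 : ℕ) ∧ ∀ Y : ℝ, X ^ (1 / 2 + ε) ≤ Y → Y ≤ X →
    ∑ Q ∈ (Icc 1 ⌊2 * Y⌋₊).filter (fun Q : ℕ => Q.Prime ∧ Y < Q),
      |(∑ a ∈ (range Q).filter (fun a => Nat.Coprime a Q),
          ((∑ n ∈ (Icc 1 ⌊X⌋₊).filter (fun n => n ≡ a [MOD Q]), Λ n) -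
            X / (Nat.totient Q : ℝ)) ^ 2) - X * Real.log Q|
      ≤ (C * Real.log (X / Y) + η * Real.log X) * X * (Y / Real.log Y) := by
  obtain ⟨C, hC⟩ := full_variance_at ε hε
  obtain ⟨Z₁, hZ₁⟩ := near_zero
  refine ⟨C, fun η hη => ?_⟩
  obtain ⟨Z₀, hZ₀⟩ := hC η hη
  refine ⟨max Z₀ Z₁, fun Z hZ => ?_⟩
  obtain ⟨N, hN1, hN2, hN3⟩ := hZ₁ Z ((le_max_right _ _).trans hZ)
  refine ⟨N, hN1, hN2, fun Y hY1 hY2 => ?_⟩
  rw [Nat.floor_natCast]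
  exact hZ₀ N (((le_max_left _ _).trans hZ).trans hN1) hN3 Y hY1 hY2

end Pool.Agent.NZ
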