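import Mathlib

/-!
# NZ, part A: integrals and Taylor coefficients
-/

set_option autoImplicit false

namespace Pool.Agent.NZ

open MeasureTheory Set Filter
open scoped Topology ENNReal NNReal

theorem exp_image : Real.exp '' Ioi 0 = Ioi 1 := by
  ext t
  constructor
  · rintro ⟨u, hu, rfl⟩
    exact Real.one_lt_exp_iff.2 hu
  · intro ht
    have ht' : (1 : ℝ) < t := ht
    exact ⟨Real.log t, Real.log_pos ht', Real.exp_log (by linarith)⟩

theorem J_fun (b : ℝ) (k : ℕ) (u : ℝ) :
    |Real.exp u| • (Real.exp u ^ (-1 - b) * (Real.log (Real.exp u)) ^ k) =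
      u ^ ((k + 1 : ℝ) - 1) * Real.exp (-(b * u)) := by
  rw [abs_of_pos (Real.exp_pos u), Real.log_exp, smul_eq_mul, add_sub_cancel_right,
    Real.rpow_natCast, ← Real.exp_mul, ← mul_assoc, ← Real.exp_add, mul_comm]
  congr 2
  ring

theorem J_integrable {b : ℝ} (hb : 0 < b) (k : ℕ) :
    IntegrableOn (fun t : ℝ => t ^ (-1 - b) * (Real.log t) ^ k) (Ioi 1) := by
  rw [← exp_image, integrableOn_image_iff_integrableOn_abs_deriv_smul measurableSet_Ioi
    (fun x _ => (Real.hasDerivAt_exp x).hasDerivWithinAt) Real.exp_injective.injOn]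
  have h := integrableOn_rpow_mul_exp_neg_mul_rpow (p := 1) (s := k) (b := b)
    (by have : (0 : ℝ) ≤ k := k.cast_nonneg
        linarith) one_pos hb
  refine h.congr_fun (fun u _ => ?_) measurableSet_Ioi
  simp only
  rw [J_fun b k u, Real.rpow_one, add_sub_cancel_right]
  congr 2
  ring

theorem J_integral {b : ℝ} (hb : 0 < b) (k : ℕ) :
    ∫ t in Ioi (1 : ℝ), t ^ (-1 - b) * (Real.log t) ^ k = k.factorial * (1 / b) ^ (k + 1) := by
  rw [← exp_image, integral_image_eq_integral_abs_deriv_smul measurableSet_Ioi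
    (fun x _ => (Real.hasDerivAt_exp x).hasDerivWithinAt) Real.exp_injective.injOn]
  have h := Real.integral_rpow_mul_exp_neg_mul_Ioi (a := k + 1) (r := b) (by positivity) hb
  rw [Real.Gamma_nat_eq_factorial] at h
  rw [mul_comm, ← Real.rpow_natCast (1 / b) (k + 1)]
  push_cast
  rw [← h]
  exact setIntegral_congr_fun measurableSet_Ioi fun u _ => J_fun b k u

/-- Taylor coefficients: if a power series with coefficients `c` agrees near `0` with a function
that is holomorphic on the closed disc of radius `r`, then `‖c k‖ ≤ M / r ^ k`. -/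
theorem coeff_bound {g : ℂ → ℂ} {c : ℕ → ℂ} {r : ℝ≥0} (hr : 0 < r)
    (hg : DifferentiableOn ℂ g (Metric.closedBall 0 r))
    (hc : ∀ᶠ z in 𝓝 (0 : ℂ), HasSum (fun n => c n * z ^ n) (g z)) :
    ∃ M : ℝ, 0 ≤ M ∧ ∀ k, ‖c k‖ ≤ M * ((r : ℝ)⁻¹) ^ k := by
  have h1 := hg.hasFPowerSeriesOnBall hr
  have h2 : HasFPowerSeriesAt g (FormalMultilinearSeries.ofScalars ℂ c) 0 := by
    rw [hasFPowerSeriesAt_iff]
    filter_upwards [hc] with z hz
    rw [zero_add]
    have h4 : (fun n => z ^ n • (FormalMultilinearSeries.ofScalars ℂ c).coeff n) =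
        fun n => c n * z ^ n := by
      funext n
      rw [FormalMultilinearSeries.coeff_ofScalars, smul_eq_mul, mul_comm]
    rw [h4]
    exact hz
  have h3 := h2.eq_formalMultilinearSeries h1.hasFPowerSeriesAt
  refine ⟨(2 * Real.pi)⁻¹ * ∫ θ : ℝ in (0)..2 * Real.pi, ‖g (circleMap 0 r θ)‖, ?_, fun k => ?_⟩
  · refine mul_nonneg (by positivity) ?_
    exact intervalIntegral.integral_nonneg Real.two_pi_pos.le fun _ _ => norm_nonneg _
  · have h4 := norm_cauchyPowerSeries_le g 0 r k
    rw [abs_of_nonneg r.coe_nonneg] at h4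
    refine le_trans ?_ h4
    rw [← h3]
    have h5 : c k = (FormalMultilinearSeries.ofScalars ℂ c).coeff k := by
      rw [FormalMultilinearSeries.coeff_ofScalars]
    rw [h5, FormalMultilinearSeries.norm_apply_eq_norm_coef]

end Pool.Agent.NZ
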