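import Pool.Agent.Lib_helper99.NZ.A

/-!
# NZ, part B: Taylor expansion of a Mellin transform at `5/4`
-/

set_option autoImplicit false

namespace Pool.Agent.NZ

open MeasureTheory Set Filter
open scoped Topology ENNReal NNReal

/-- the Taylor coefficients -/
noncomputable def cf (φ : ℝ → ℝ) (k : ℕ) : ℝ :=
  ∫ t in Ioi (1 : ℝ), φ t * t ^ (-(9 / 4) : ℝ) * ((Real.log t) ^ k / k.factorial)

theorem le_J {φ : ℝ → ℝ} {C : ℝ} (hC : ∀ t, 1 < t → |φ t| ≤ C * t) (k : ℕ) {t : ℝ} (ht : 1 < t) :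
    |φ t * t ^ (-(9 / 4) : ℝ) * ((Real.log t) ^ k / k.factorial)| ≤
      C / k.factorial * (t ^ (-1 - (1 / 4) : ℝ) * (Real.log t) ^ k) := by
  have ht0 : (0 : ℝ) < t := by linarith
  have hl : 0 ≤ Real.log t := (Real.log_pos ht).le
  have e : t * t ^ (-(9 / 4) : ℝ) = t ^ (-1 - (1 / 4) : ℝ) := by
    rw [← Real.rpow_one_add' ht0.le (by norm_num)]
    norm_num
  rw [abs_mul, abs_mul, abs_of_nonneg (by positivity : (0 : ℝ) ≤ t ^ (-(9 / 4) : ℝ)),
    abs_of_nonneg (by positivity : (0 : ℝ) ≤ (Real.log t) ^ k / k.factorial), ← e]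
  calc |φ t| * t ^ (-(9 / 4) : ℝ) * ((Real.log t) ^ k / k.factorial)
      ≤ (C * t) * t ^ (-(9 / 4) : ℝ) * ((Real.log t) ^ k / k.factorial) := by
        gcongr
        exact hC t ht
    _ = _ := by ring

theorem cf_integrable {φ : ℝ → ℝ} (hm : Measurable φ) {C : ℝ} (hC : ∀ t, 1 < t → |φ t| ≤ C * t)
    (k : ℕ) : IntegrableOn
      (fun t => φ t * t ^ (-(9 / 4) : ℝ) * ((Real.log t) ^ k / k.factorial)) (Ioi 1) := by
  refine Integrable.mono' ((J_integrable (b := 1 / 4) (by norm_num) k).const_mul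
    (C / k.factorial)) ?_ ?_
  · refine Measurable.aestronglyMeasurable ?_
    exact (hm.mul (measurable_id.pow_const _)).mul ((Real.measurable_log.pow_const k).div_const _)
  · rw [ae_restrict_iff' measurableSet_Ioi]
    exact Eventually.of_forall fun t ht => le_J hC k ht

theorem cf_hasSum {φ : ℝ → ℝ} (hm : Measurable φ) {C : ℝ} (hC : ∀ t, 1 < t → |φ t| ≤ C * t)
    {z : ℂ} (hz : ‖z‖ < 1 / 4) :
    HasSum (fun k => ((cf φ k : ℝ) : ℂ) * z ^ k)
      (∫ t in Ioi (1 : ℝ), (φ t : ℂ) * (t : ℂ) ^ (-((5 / 4 - z) + 1))) := by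
  have hC0 : 0 ≤ C := by
    have := (abs_nonneg _).trans (hC 2 (by norm_num))
    linarith
  set F : ℕ → ℝ → ℂ := fun k t =>
    ((φ t * t ^ (-(9 / 4) : ℝ) * ((Real.log t) ^ k / k.factorial) : ℝ) : ℂ) * z ^ k with hF
  have hFi : ∀ k, Integrable (F k) (volume.restrict (Ioi 1)) := fun k =>
    ((cf_integrable hm hC k).ofReal).mul_const _
  have hFn : ∀ k, ∫ t in Ioi (1 : ℝ), ‖F k t‖ ≤ (4 * C) * (4 * ‖z‖) ^ k := by
    intro k
    have h1 : ∀ t ∈ Ioi (1 : ℝ), ‖F k t‖ ≤
        (C / k.factorial * ‖z‖ ^ k) * (t ^ (-1 - (1 / 4) : ℝ) * (Real.log t) ^ k) := by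
      intro t ht
      rw [hF]
      simp only
      rw [norm_mul, norm_pow, Complex.norm_real, Real.norm_eq_abs]
      calc _ ≤ C / k.factorial * (t ^ (-1 - (1 / 4) : ℝ) * (Real.log t) ^ k) * ‖z‖ ^ k :=
            mul_le_mul_of_nonneg_right (le_J hC k ht) (by positivity)
        _ = _ := by ring
    refine (setIntegral_mono_on (hFi k).norm
      ((J_integrable (b := 1 / 4) (by norm_num) k).const_mul _) measurableSet_Ioi h1).trans ?_
    rw [integral_const_mul, J_integral (by norm_num)]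
    have hk : (0 : ℝ) < k.factorial := by positivity
    apply le_of_eq
    rw [mul_pow]
    field_simp
    ring
  have hsum : Summable fun k => ∫ t in Ioi (1 : ℝ), ‖F k t‖ := by
    refine Summable.of_nonneg_of_le (fun k => integral_nonneg fun _ => norm_nonneg _) hFn ?_
    exact (summable_geometric_of_lt_one (by positivity) (by linarith)).mul_left _
  have h := hasSum_integral_of_summable_integral_norm hFi hsum
  have e1 : ∀ k, ∫ t in Ioi (1 : ℝ), F k t = ((cf φ k : ℝ) : ℂ) * z ^ k := by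
    intro k
    rw [hF]
    simp only
    rw [integral_mul_const, integral_complex_ofReal]
    rfl
  have e2 : ∫ t in Ioi (1 : ℝ), ∑' k, F k t =
      ∫ t in Ioi (1 : ℝ), (φ t : ℂ) * (t : ℂ) ^ (-((5 / 4 - z) + 1)) := by
    refine setIntegral_congr_fun measurableSet_Ioi fun t ht => ?_
    have ht' : (1 : ℝ) < t := ht
    have ht0 : (0 : ℝ) < t := by linarith
    have htC : (t : ℂ) ≠ 0 := by exact_mod_cast ht0.ne'
    have e3 : (t : ℂ) ^ (-((5 / 4 - z) + 1)) =
        ((t ^ (-(9 / 4) : ℝ) : ℝ) : ℂ) * Complex.exp (z * Real.log t) := by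
      rw [Complex.ofReal_cpow ht0.le, Complex.cpow_def_of_ne_zero htC,
        Complex.cpow_def_of_ne_zero htC, ← Complex.exp_add, ← Complex.ofReal_log ht0.le]
      congr 1
      push_cast
      ring
    rw [e3, Complex.exp_eq_exp_ℂ, NormedSpace.exp_eq_tsum_div, ← mul_assoc, ← tsum_mul_left]
    refine tsum_congr fun k => ?_
    rw [hF]
    simp only
    push_cast
    rw [mul_pow]
    ring
  rw [e2] at h
  simp_rw [e1] at h
  exact h

end Pool.Agent.NZ
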