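import Pool.Agent.Lib_helper99.NZ.B
import Pool.Agent.Lib_helper98.GAF.Z2

/-!
# NZ, part C: the analytic continuation
-/

set_option autoImplicit false

namespace Pool.Agent.NZ

open MeasureTheory Set Filter Pool.Agent.GA
open scoped Topology ENNReal NNReal ArithmeticFunction.vonMangoldt

/-- `(s - 1) ζ(s)` has no zero with `|s - 1| < Re s` -/
theorem zeta₁_ne {s : ℂ} (h : ‖s - 1‖ < s.re) : riemannZeta₁ s ≠ 0 := by
  have hs : 0 < s.re := (norm_nonneg _).trans_lt h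
  have h0 := z2_all hs
  have h1 := z2_bound hs
  intro h2
  unfold riemannZeta₁ at h2
  rw [h0] at h2
  unfold z2_F at h2
  have h3 : s * (1 - (s - 1) * mellin z2_f (-s)) = 0 := by linear_combination h2
  have hs0 : s ≠ 0 := by
    rintro rfl
    simp at hs
  have h4 : (s - 1) * mellin z2_f (-s) = 1 := by
    rcases mul_eq_zero.1 h3 with h | h
    · exact absurd h hs0
    · linear_combination -h
  have h5 : ‖(s - 1) * mellin z2_f (-s)‖ < 1 := by
    rw [norm_mul]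
    calc ‖s - 1‖ * ‖mellin z2_f (-s)‖ ≤ ‖s - 1‖ * (1 / s.re) := by gcongr
      _ < s.re * (1 / s.re) := by gcongr
      _ = 1 := by field_simp
  rw [h4, norm_one] at h5
  exact lt_irrefl _ h5

/-- the continuation of the Mellin transform of `ψ(t) - ⌊t⌋` -/
noncomputable def Fc (s : ℂ) : ℂ := -(deriv riemannZeta₁ s / riemannZeta₁ s + riemannZeta₀ s) / s

theorem Fc_diff {s : ℂ} (h : ‖s - 1‖ < s.re) : DifferentiableAt ℂ Fc s := by
  have hs : 0 < s.re := (norm_nonneg _).trans_lt h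
  have hs0 : s ≠ 0 := by
    rintro rfl
    simp at hs
  unfold Fc
  refine DifferentiableAt.div (DifferentiableAt.neg ?_) differentiableAt_id hs0
  refine DifferentiableAt.add (DifferentiableAt.div ?_ ?_ (zeta₁_ne h)) ?_
  · exact (differentiable_riemannZeta₁.deriv).differentiableAt
  · exact differentiable_riemannZeta₁.differentiableAt
  · exact differentiable_riemannZeta₀.differentiableAt

theorem Fc_diffOn : DifferentiableOn ℂ (fun z : ℂ => Fc (5 / 4 - z))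
    (Metric.closedBall 0 ((5 / 8 : ℝ≥0) : ℝ)) := by
  intro z hz
  rw [Metric.mem_closedBall, dist_zero_right] at hz
  push_cast at hz
  refine DifferentiableAt.differentiableWithinAt ?_
  refine DifferentiableAt.comp (g := Fc) (f := fun z : ℂ => 5 / 4 - z) z (Fc_diff ?_)
    ((differentiableAt_const _).sub differentiableAt_id)
  have h1 : z.re ^ 2 + z.im ^ 2 ≤ (5 / 8) ^ 2 := by
    have := Complex.sq_norm z
    rw [Complex.normSq_apply] at this
    nlinarith [norm_nonneg z]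
  have h2 : |z.re| ≤ 5 / 8 := (Complex.abs_re_le_norm z).trans hz
  rw [abs_le] at h2
  have e1 : (5 / 4 - z).re = 5 / 4 - z.re := by
    simp only [Complex.sub_re]
    norm_num
  have h3 : 0 < (5 / 4 - z).re := by rw [e1]; linarith
  refine lt_of_pow_lt_pow_left₀ 2 h3.le ?_
  rw [Complex.sq_norm, Complex.normSq_apply, e1]
  have e2 : (5 / 4 - z - 1).re = 1 / 4 - z.re := by
    simp only [Complex.sub_re, Complex.one_re]
    norm_num
    ring
  have e3 : (5 / 4 - z - 1).im = -z.im := by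
    simp only [Complex.sub_im, Complex.one_im]
    norm_num
  rw [e2, e3]
  nlinarith

/-- `ψ(t) - ⌊t⌋` -/
noncomputable def E1 (t : ℝ) : ℝ := ∑ k ∈ Finset.Icc 1 ⌊t⌋₊, (Λ k - 1)

theorem E1_meas : Measurable E1 := by
  have h : E1 = (fun n : ℕ => ∑ k ∈ Finset.Icc 1 n, (Λ k - 1)) ∘ (fun t : ℝ => ⌊t⌋₊) := rfl
  rw [h]
  exact (measurable_from_top).comp Nat.measurable_floor

theorem E1_nat (n : ℕ) : |∑ k ∈ Finset.Icc 1 n, (Λ k - 1)| ≤ (Real.log 4 + 5) * n := by
  have h1 : ∑ k ∈ Finset.Icc 1 n, Λ k = Chebyshev.psi n := by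
    rw [Chebyshev.psi_eq_sum_Icc, Nat.floor_natCast]
    rw [← Finset.add_sum_Ioc_eq_sum_Icc (f := fun k => (Λ k : ℝ)) (Nat.zero_le n)]
    simp only [ArithmeticFunction.map_zero, zero_add]
    rfl
  rw [Finset.sum_sub_distrib, h1]
  have h2 := Chebyshev.psi_nonneg n
  have h3 := Chebyshev.psi_le_const_mul_self (x := n) n.cast_nonneg
  have h4 : ∑ k ∈ Finset.Icc 1 n, (1 : ℝ) = n := by simp
  rw [h4]
  have h5 : (0 : ℝ) ≤ n := n.cast_nonneg
  have h6 : 0 ≤ Real.log 4 := Real.log_nonneg (by norm_num)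
  rw [abs_le]
  constructor <;> nlinarith

theorem E1_le {t : ℝ} (ht : 1 < t) : |E1 t| ≤ (Real.log 4 + 5) * t := by
  have h1 := E1_nat ⌊t⌋₊
  have h2 : (⌊t⌋₊ : ℝ) ≤ t := Nat.floor_le (by linarith)
  have h6 : 0 ≤ Real.log 4 := Real.log_nonneg (by norm_num)
  unfold E1
  refine h1.trans ?_
  gcongr

theorem mellin_E1 {s : ℂ} (hs : 1 < s.re) :
    ∫ t in Ioi (1 : ℝ), (E1 t : ℂ) * (t : ℂ) ^ (-(s + 1)) = Fc s := by
  have hs1 : s ≠ 1 := by rintro rfl; simp at hs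
  have hs0 : s ≠ 0 := by rintro rfl; simp at hs; linarith
  have hsum1 : LSeriesSummable (fun n => (Λ n : ℂ)) s := by
    exact ArithmeticFunction.LSeriesSummable_vonMangoldt hs
  have hsum2 : LSeriesSummable (1 : ℕ → ℂ) s := LSeriesSummable_one_iff.2 hs
  have h1 : LSeries ((fun n => (Λ n : ℂ)) - 1) s =
      s * ∫ t in Set.Ioi (1 : ℝ), (∑ k ∈ Finset.Icc 1 ⌊t⌋₊,
        ((fun n => (Λ n : ℂ)) - 1 : ℕ → ℂ) k) * (t : ℂ) ^ (-(s + 1)) := by
    refine LSeries_eq_mul_integral _ (r := 1) zero_le_one hs (hsum1.sub hsum2) ?_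
    refine Asymptotics.IsBigO.of_bound (Real.log 4 + 5) (Eventually.of_forall fun n => ?_)
    have h2 : ∑ k ∈ Finset.Icc 1 n, ((fun n => (Λ n : ℂ)) - 1 : ℕ → ℂ) k =
        ((∑ k ∈ Finset.Icc 1 n, (Λ k - 1) : ℝ) : ℂ) := by
      push_cast
      rfl
    rw [h2, Complex.norm_real, Real.norm_eq_abs, Real.rpow_one, Real.norm_eq_abs,
      abs_of_nonneg (n.cast_nonneg : (0 : ℝ) ≤ n)]
    exact E1_nat n
  rw [LSeries_sub hsum1 hsum2, ArithmeticFunction.LSeries_vonMangoldt_eq_deriv_riemannZeta_div hs,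
    LSeries_one_eq_riemannZeta hs] at h1
  have h3 : ∫ t in Set.Ioi (1 : ℝ), (∑ k ∈ Finset.Icc 1 ⌊t⌋₊,
        ((fun n => (Λ n : ℂ)) - 1 : ℕ → ℂ) k) * (t : ℂ) ^ (-(s + 1)) =
      ∫ t in Ioi (1 : ℝ), (E1 t : ℂ) * (t : ℂ) ^ (-(s + 1)) := by
    refine setIntegral_congr_fun measurableSet_Ioi fun t _ => ?_
    simp only [E1]
    push_cast
    rfl
  rw [h3] at h1
  have h4 : ∫ t in Ioi (1 : ℝ), (E1 t : ℂ) * (t : ℂ) ^ (-(s + 1)) =
      (-deriv riemannZeta s / riemannZeta s - riemannZeta s) / s := by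
    rw [h1]; field_simp
  rw [h4]
  unfold Fc
  congr 1
  have hz : riemannZeta s ≠ 0 := riemannZeta_ne_zero_of_one_le_re hs.le
  have hs1' : s - 1 ≠ 0 := sub_ne_zero.2 hs1
  have hz1 : riemannZeta₁ s ≠ 0 := by
    intro h
    apply hz
    rw [riemannZeta_eq_inv_sub_mul hs1, h, mul_zero]
  rw [deriv_riemannZeta_eq_neg_inv_sub_sq_mul_add hs1]
  nth_rewrite 2 [riemannZeta_eq_inv_sub_add hs1]
  rw [riemannZeta_eq_inv_sub_mul hs1]
  field_simp
  ring

theorem cf_E1 : ∃ M : ℝ, 0 ≤ M ∧ ∀ k, |cf E1 k| ≤ M * ((8 / 5 : ℝ)) ^ k := by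
  have hc : ∀ᶠ z in 𝓝 (0 : ℂ), HasSum (fun n => ((cf E1 n : ℝ) : ℂ) * z ^ n)
      (Fc (5 / 4 - z)) := by
    have h1 : Metric.ball (0 : ℂ) (1 / 4) ∈ 𝓝 (0 : ℂ) := Metric.ball_mem_nhds _ (by norm_num)
    filter_upwards [h1] with z hz
    rw [Metric.mem_ball, dist_zero_right] at hz
    have h2 := cf_hasSum E1_meas (C := Real.log 4 + 5) (fun t ht => E1_le ht) hz
    rwa [mellin_E1] at h2
    have h3 : (5 / 4 - z).re = 5 / 4 - z.re := by
      simp only [Complex.sub_re]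
      norm_num
    rw [h3]
    have := (Complex.abs_re_le_norm z).trans_lt hz
    rw [abs_lt] at this
    linarith
  obtain ⟨M, hM, h⟩ := coeff_bound (r := 5 / 8) (by norm_num) Fc_diffOn hc
  refine ⟨M, hM, fun k => ?_⟩
  have h1 := h k
  rw [Complex.norm_real, Real.norm_eq_abs] at h1
  convert h1 using 3
  push_cast
  norm_num

end Pool.Agent.NZ
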