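import Pool.Agent.Lib_helper99.NZ.C

/-!
# NZ, part D: near-zeros of `ψ(x) - x`
-/

set_option autoImplicit false

namespace Pool.Agent.NZ

open MeasureTheory Set Filter
open scoped Topology ENNReal NNReal ArithmeticFunction.vonMangoldt

/-- `ψ(n) - n` -/
noncomputable def en (n : ℕ) : ℝ := ∑ k ∈ Finset.Icc 1 n, (Λ k - 1)

theorem en_succ (n : ℕ) : en (n + 1) = en n + (Λ (n + 1) - 1) := by
  unfold en
  rw [Finset.sum_Icc_succ_top (by omega)]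

theorem log_le_pow {x : ℝ} (hx : 1 ≤ x) : Real.log x ≤ x ^ (3 / 4 : ℝ) := by
  have hx0 : 0 < x := by linarith
  obtain ⟨u, hu⟩ : ∃ u : ℝ, u = x ^ (3 / 8 : ℝ) := ⟨_, rfl⟩
  have hu0 : 0 < u := by rw [hu]; positivity
  have h1 : Real.log u = 3 / 8 * Real.log x := by rw [hu, Real.log_rpow hx0]
  have h2 : x ^ (3 / 4 : ℝ) = u ^ 2 := by
    rw [hu, ← Real.rpow_natCast, ← Real.rpow_mul hx0.le]
    norm_num
  have h3 := Real.log_le_sub_one_of_pos hu0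
  rw [h2]
  nlinarith [sq_nonneg (u - 4 / 3)]

/-- constant sign -/
theorem sign {n₀ n₁ : ℕ} (hn₀ : 2 ≤ n₀)
    (h : ∀ n, n₀ ≤ n → n ≤ n₁ → (n : ℝ) ^ (3 / 4 : ℝ) < |en n|) :
    (∀ n, n₀ ≤ n → n ≤ n₁ → (n : ℝ) ^ (3 / 4 : ℝ) < en n) ∨
      (∀ n, n₀ ≤ n → n ≤ n₁ → (n : ℝ) ^ (3 / 4 : ℝ) < -en n) := by
  rcases lt_or_ge n₁ n₀ with h0 | h0
  · left
    intro n h1 h2
    omega
  have hpow : ∀ n : ℕ, 1 ≤ n → (1 : ℝ) ≤ (n : ℝ) ^ (3 / 4 : ℝ) := by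
    intro n hn
    exact Real.one_le_rpow (by exact_mod_cast hn) (by norm_num)
  rcases le_total 0 (en n₀) with hs | hs
  · left
    intro n h1
    induction n, h1 using Nat.le_induction with
    | base =>
      intro h2
      have := h n₀ le_rfl h2
      rwa [abs_of_nonneg hs] at this
    | succ n hn ih =>
      intro h2
      have h3 := ih (by omega)
      have h4 := h (n + 1) (by omega) h2
      have h5 : en n - 1 ≤ en (n + 1) := by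
        rw [en_succ]
        have : (0 : ℝ) ≤ Λ (n + 1) := ArithmeticFunction.vonMangoldt_nonneg
        linarith
      have h6 := hpow n (by omega)
      have h7 := hpow (n + 1) (by omega)
      rwa [abs_of_nonneg (by linarith)] at h4
  · right
    intro n h1
    induction n, h1 using Nat.le_induction with
    | base =>
      intro h2
      have := h n₀ le_rfl h2
      rwa [abs_of_nonpos hs] at this
    | succ n hn ih =>
      intro h2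
      have h3 := ih (by omega)
      have h4 := h (n + 1) (by omega) h2
      by_cases h8 : en (n + 1) ≤ 0
      · rwa [abs_of_nonpos h8] at h4
      · exfalso
        push Not at h8
        rw [abs_of_pos h8] at h4
        have h5 : en (n + 1) ≤ en n + Real.log ((n + 1 : ℕ) : ℝ) := by
          rw [en_succ]
          have : (Λ (n + 1) : ℝ) ≤ Real.log ((n + 1 : ℕ) : ℝ) :=
            ArithmeticFunction.vonMangoldt_le_log
          linarith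
        have h9 : Real.log ((n + 1 : ℕ) : ℝ) ≤ ((n + 1 : ℕ) : ℝ) ^ (3 / 4 : ℝ) :=
          log_le_pow (by exact_mod_cast (by omega : 1 ≤ n + 1))
        have h10 := hpow n (by omega)
        linarith

/-- the constant -/
noncomputable def Cc : ℝ := Real.log 4 + 5 + 1 / 2

theorem Cc_pos : 0 < Cc := by
  have h6 : 0 ≤ Real.log 4 := Real.log_nonneg (by norm_num)
  unfold Cc
  linarith

theorem pointwise {σ : ℝ} (hσ : |σ| = 1) {n₀ n₁ : ℕ} (hn₀ : 1 ≤ n₀) {B : ℝ} (hB : 1 ≤ B)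
    (hBn : ∀ t : ℝ, t ≤ B → ⌊t⌋₊ ≤ n₁)
    (h : ∀ n, n₀ ≤ n → n ≤ n₁ → (n : ℝ) ^ (3 / 4 : ℝ) < σ * en n) {t : ℝ} (ht : 1 < t) :
    1 / 2 * t ^ (-1 - 1 / 2 : ℝ) - Cc * ((n₀ : ℝ) * t ^ (-1 - 1 : ℝ) +
      B ^ (-(1 / 8) : ℝ) * t ^ (-1 - 1 / 8 : ℝ)) ≤ σ * (E1 t * t ^ (-(9 / 4) : ℝ)) := by
  have ht0 : (0 : ℝ) < t := by linarith
  have hn₀R : (1 : ℝ) ≤ n₀ := by exact_mod_cast hn₀
  have hCc := Cc_pos
  have hX : (0 : ℝ) ≤ (n₀ : ℝ) * t ^ (-1 - 1 : ℝ) := by positivity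
  have hY : (0 : ℝ) ≤ B ^ (-(1 / 8) : ℝ) * t ^ (-1 - 1 / 8 : ℝ) := by positivity
  have e1 : t ^ (3 / 4 : ℝ) * t ^ (-(9 / 4) : ℝ) = t ^ (-1 - 1 / 2 : ℝ) := by
    rw [← Real.rpow_add ht0]; norm_num
  have hE : E1 t = en ⌊t⌋₊ := rfl
  have h9 : (0 : ℝ) < t ^ (-(9 / 4) : ℝ) := by positivity
  by_cases hin : (n₀ : ℝ) ≤ t ∧ t ≤ B
  · obtain ⟨h1, h2⟩ := hin
    have h3 : n₀ ≤ ⌊t⌋₊ := Nat.le_floor h1
    have h4 := h ⌊t⌋₊ h3 (hBn t h2)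
    have h5 : t / 2 ≤ (⌊t⌋₊ : ℝ) := by
      have := Nat.lt_floor_add_one t
      have h6 : (1 : ℝ) ≤ (⌊t⌋₊ : ℝ) := by exact_mod_cast (by omega : 1 ≤ ⌊t⌋₊)
      linarith
    have h6 : 1 / 2 * t ^ (3 / 4 : ℝ) ≤ (⌊t⌋₊ : ℝ) ^ (3 / 4 : ℝ) := by
      have h7 : (t / 2) ^ (3 / 4 : ℝ) ≤ (⌊t⌋₊ : ℝ) ^ (3 / 4 : ℝ) :=
        Real.rpow_le_rpow (by positivity) h5 (by norm_num)
      refine le_trans ?_ h7
      have e0 : t / 2 = (1 / 2 : ℝ) * t := by ring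
      rw [e0, Real.mul_rpow (by norm_num) ht0.le]
      have : ((1 / 2 : ℝ)) ^ (1 : ℝ) ≤ ((1 / 2 : ℝ)) ^ (3 / 4 : ℝ) :=
        Real.rpow_le_rpow_of_exponent_ge (by norm_num) (by norm_num) (by norm_num)
      rw [Real.rpow_one] at this
      exact mul_le_mul_of_nonneg_right this (by positivity)
    have h8 : 1 / 2 * t ^ (-1 - 1 / 2 : ℝ) ≤ σ * (E1 t * t ^ (-(9 / 4) : ℝ)) := by
      rw [← e1, hE]
      calc 1 / 2 * (t ^ (3 / 4 : ℝ) * t ^ (-(9 / 4) : ℝ))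
          = (1 / 2 * t ^ (3 / 4 : ℝ)) * t ^ (-(9 / 4) : ℝ) := by ring
        _ ≤ (σ * en ⌊t⌋₊) * t ^ (-(9 / 4) : ℝ) :=
            mul_le_mul_of_nonneg_right (h6.trans h4.le) h9.le
        _ = _ := by ring
    have h10 := mul_nonneg hCc.le (add_nonneg hX hY)
    linarith
  · -- outside
    have e2 : t * t ^ (-(9 / 4) : ℝ) = t ^ (-(5 / 4) : ℝ) := by
      rw [← Real.rpow_one_add' ht0.le (by norm_num)]
      norm_num
    have h1 : |σ * (E1 t * t ^ (-(9 / 4) : ℝ))| ≤ (Real.log 4 + 5) * t ^ (-(5 / 4) : ℝ) := by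
      rw [abs_mul, hσ, one_mul, abs_mul, abs_of_pos h9, ← e2, ← mul_assoc]
      exact mul_le_mul_of_nonneg_right (E1_le ht) h9.le
    have h2 : t ^ (-1 - 1 / 2 : ℝ) ≤ t ^ (-(5 / 4) : ℝ) :=
      Real.rpow_le_rpow_of_exponent_le ht.le (by norm_num)
    have h3 : t ^ (-(5 / 4) : ℝ) ≤ (n₀ : ℝ) * t ^ (-1 - 1 : ℝ) +
        B ^ (-(1 / 8) : ℝ) * t ^ (-1 - 1 / 8 : ℝ) := by
      rcases lt_or_ge t n₀ with h4 | h4
      · have h5 : t ^ (-(5 / 4) : ℝ) ≤ t ^ (-1 : ℝ) :=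
          Real.rpow_le_rpow_of_exponent_le ht.le (by norm_num)
        have h6 : t ^ (-1 : ℝ) = t * t ^ (-1 - 1 : ℝ) := by
          rw [← Real.rpow_one_add' ht0.le (by norm_num)]
          norm_num
        have h7 : t * t ^ (-1 - 1 : ℝ) ≤ (n₀ : ℝ) * t ^ (-1 - 1 : ℝ) := by gcongr
        exact (h5.trans (h6.le.trans h7)).trans (le_add_of_nonneg_right hY)
      · have h5 : B < t := by
          by_contra h6
          exact hin ⟨h4, not_lt.1 h6⟩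
        have h6 : t ^ (-(5 / 4) : ℝ) = t ^ (-(1 / 8) : ℝ) * t ^ (-1 - 1 / 8 : ℝ) := by
          rw [← Real.rpow_add ht0]; norm_num
        have h7 : t ^ (-(1 / 8) : ℝ) ≤ B ^ (-(1 / 8) : ℝ) :=
          Real.rpow_le_rpow_of_nonpos (by linarith) h5.le (by norm_num)
        have h8 : t ^ (-(1 / 8) : ℝ) * t ^ (-1 - 1 / 8 : ℝ) ≤
            B ^ (-(1 / 8) : ℝ) * t ^ (-1 - 1 / 8 : ℝ) := by gcongr
        exact (h6.le.trans h8).trans (le_add_of_nonneg_left hX)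
    rw [abs_le] at h1
    have h6 : 0 ≤ Real.log 4 := Real.log_nonneg (by norm_num)
    have h7 : Cc * t ^ (-(5 / 4) : ℝ) ≤ Cc * ((n₀ : ℝ) * t ^ (-1 - 1 : ℝ) +
        B ^ (-(1 / 8) : ℝ) * t ^ (-1 - 1 / 8 : ℝ)) := by gcongr
    have h8 : Cc * t ^ (-(5 / 4) : ℝ) = (Real.log 4 + 5) * t ^ (-(5 / 4) : ℝ) +
        1 / 2 * t ^ (-(5 / 4) : ℝ) := by
      unfold Cc; ring
    linarith [h1.1]

theorem main_ineq {σ : ℝ} (hσ : |σ| = 1) {n₀ n₁ : ℕ} (hn₀ : 1 ≤ n₀) {B : ℝ} (hB : 1 ≤ B)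
    (hBn : ∀ t : ℝ, t ≤ B → ⌊t⌋₊ ≤ n₁)
    (h : ∀ n, n₀ ≤ n → n ≤ n₁ → (n : ℝ) ^ (3 / 4 : ℝ) < σ * en n) (k : ℕ) :
    2 ^ k - Cc * ((n₀ : ℝ) + B ^ (-(1 / 8) : ℝ) * 8 ^ (k + 1)) ≤ σ * cf E1 k := by
  have hk : (0 : ℝ) < k.factorial := by positivity
  have hJ : ∀ b : ℝ, 0 < b → IntegrableOn
      (fun t : ℝ => t ^ (-1 - b) * ((Real.log t) ^ k / k.factorial)) (Ioi 1) ∧
      ∫ t in Ioi (1 : ℝ), t ^ (-1 - b) * ((Real.log t) ^ k / k.factorial) = (1 / b) ^ (k + 1) := by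
    intro b hb
    have e : ∀ t : ℝ, t ^ (-1 - b) * ((Real.log t) ^ k / k.factorial) =
        (t ^ (-1 - b) * (Real.log t) ^ k) * (1 / k.factorial) := fun t => by ring
    simp_rw [e]
    refine ⟨(J_integrable hb k).mul_const _, ?_⟩
    rw [integral_mul_const, J_integral hb]
    field_simp
  obtain ⟨i1, v1⟩ := hJ (1 / 2) (by norm_num)
  obtain ⟨i2, v2⟩ := hJ 1 (by norm_num)
  obtain ⟨i3, v3⟩ := hJ (1 / 8) (by norm_num)
  have hmono : ∫ t in Ioi (1 : ℝ), (1 / 2 * (t ^ (-1 - 1 / 2 : ℝ) *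
        ((Real.log t) ^ k / k.factorial)) -
      Cc * ((n₀ : ℝ) * (t ^ (-1 - 1 : ℝ) * ((Real.log t) ^ k / k.factorial)) +
        B ^ (-(1 / 8) : ℝ) * (t ^ (-1 - 1 / 8 : ℝ) * ((Real.log t) ^ k / k.factorial)))) ≤
      ∫ t in Ioi (1 : ℝ), σ * (E1 t * t ^ (-(9 / 4) : ℝ) * ((Real.log t) ^ k / k.factorial)) := by
    refine setIntegral_mono_on ?_ ?_ measurableSet_Ioi fun t ht => ?_
    · exact (i1.const_mul _).sub (((i2.const_mul _).add (i3.const_mul _)).const_mul _)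
    · exact (cf_integrable E1_meas (C := Real.log 4 + 5) (fun t ht => E1_le ht) k).const_mul _
    · have h1 := pointwise hσ hn₀ hB hBn h ht
      have ht' : (1 : ℝ) < t := ht
      have h2 : 0 ≤ (Real.log t) ^ k / k.factorial := by
        have := (Real.log_pos ht').le
        positivity
      have h3 := mul_le_mul_of_nonneg_right h1 h2
      refine le_trans (le_of_eq ?_) (h3.trans (le_of_eq ?_)) <;> ring
  rw [integral_const_mul] at hmono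
  have hI : ∫ t in Ioi (1 : ℝ), (1 / 2 * (t ^ (-1 - 1 / 2 : ℝ) *
        ((Real.log t) ^ k / k.factorial)) -
      Cc * ((n₀ : ℝ) * (t ^ (-1 - 1 : ℝ) * ((Real.log t) ^ k / k.factorial)) +
        B ^ (-(1 / 8) : ℝ) * (t ^ (-1 - 1 / 8 : ℝ) * ((Real.log t) ^ k / k.factorial)))) =
      2 ^ k - Cc * ((n₀ : ℝ) + B ^ (-(1 / 8) : ℝ) * 8 ^ (k + 1)) := by
    have a1 := integral_add (i2.const_mul (n₀ : ℝ)) (i3.const_mul (B ^ (-(1 / 8) : ℝ)))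
    rw [integral_const_mul, integral_const_mul, v2, v3] at a1
    have a2 := integral_sub (i1.const_mul (1 / 2))
      (((i2.const_mul (n₀ : ℝ)).add (i3.const_mul (B ^ (-(1 / 8) : ℝ)))).const_mul Cc)
    rw [integral_const_mul, integral_const_mul, v1] at a2
    simp only [Pi.add_apply] at a2
    rw [a1] at a2
    rw [a2]
    have e1 : (1 / (1 / 2) : ℝ) = 2 := by norm_num
    have e2 : (1 / (1 / 8) : ℝ) = 8 := by norm_num
    rw [e1, e2, pow_succ]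
    ring
  rw [hI] at hmono
  exact hmono

/-- **near-zeros of `ψ(n) - n`** -/
theorem near_zero_en : ∃ Z₀ : ℝ, ∀ Z : ℝ, Z₀ ≤ Z → ∃ N : ℕ, Z ≤ N ∧ (N : ℝ) ≤ Z ^ (40 : ℕ) ∧
    |en N| ≤ (N : ℝ) ^ (3 / 4 : ℝ) := by
  obtain ⟨M, hM, hcf⟩ := cf_E1
  have hC := Cc_pos
  have hk : Tendsto (fun Z : ℝ => ⌈2 * Real.log Z⌉₊) atTop atTop :=
    tendsto_nat_ceil_atTop.comp (Real.tendsto_log_atTop.const_mul_atTop (by norm_num))
  have h1 : ∀ᶠ Z : ℝ in atTop, M * (4 / 5 : ℝ) ^ ⌈2 * Real.log Z⌉₊ < 1 / 2 := by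
    have h2 : Tendsto (fun n : ℕ => M * (4 / 5 : ℝ) ^ n) atTop (𝓝 (M * 0)) :=
      (tendsto_pow_atTop_nhds_zero_of_lt_one (by norm_num) (by norm_num)).const_mul M
    rw [mul_zero] at h2
    exact (h2.comp hk).eventually (gt_mem_nhds (by norm_num))
  have h2 : ∀ᶠ Z : ℝ in atTop, 2 * Cc * 66 < Z ^ (1 / 3 : ℝ) :=
    (tendsto_rpow_atTop (by norm_num)).eventually_gt_atTop _
  obtain ⟨Z₀, hZ₀⟩ := eventually_atTop.1 (h1.and (h2.and (eventually_ge_atTop (2 : ℝ))))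
  refine ⟨Z₀, fun Z hZ => ?_⟩
  obtain ⟨g1, g2, g3⟩ := hZ₀ Z hZ
  by_contra hcon
  push Not at hcon
  have hZ0 : (0 : ℝ) < Z := by linarith
  have hlZ : 0 ≤ Real.log Z := Real.log_nonneg (by linarith)
  have hB : (1 : ℝ) ≤ Z ^ (40 : ℕ) := one_le_pow₀ (by linarith)
  have hn₀ : 2 ≤ ⌈Z⌉₊ := by
    have : (2 : ℝ) ≤ ⌈Z⌉₊ := g3.trans (Nat.le_ceil Z)
    exact_mod_cast this
  have hn₀Z : (⌈Z⌉₊ : ℝ) ≤ 2 * Z := by
    have := Nat.ceil_lt_add_one hZ0.le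
    linarith
  have hall : ∀ n : ℕ, ⌈Z⌉₊ ≤ n → n ≤ ⌊Z ^ (40 : ℕ)⌋₊ → (n : ℝ) ^ (3 / 4 : ℝ) < |en n| := by
    intro n h3 h4
    exact hcon n (Nat.ceil_le.1 h3) ((Nat.le_floor_iff (by positivity)).1 h4)
  have hfl : ∀ t : ℝ, t ≤ Z ^ (40 : ℕ) → ⌊t⌋₊ ≤ ⌊Z ^ (40 : ℕ)⌋₊ := fun t ht => Nat.floor_le_floor ht
  obtain ⟨σ, hσ, hs⟩ : ∃ σ : ℝ, |σ| = 1 ∧ ∀ n, ⌈Z⌉₊ ≤ n → n ≤ ⌊Z ^ (40 : ℕ)⌋₊ →
      (n : ℝ) ^ (3 / 4 : ℝ) < σ * en n := by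
    rcases sign hn₀ hall with h3 | h3
    · exact ⟨1, by norm_num, fun n h4 h5 => by rw [one_mul]; exact h3 n h4 h5⟩
    · exact ⟨-1, by norm_num, fun n h4 h5 => by rw [neg_one_mul]; exact h3 n h4 h5⟩
  set k : ℕ := ⌈2 * Real.log Z⌉₊ with hkdef
  have hmain := main_ineq hσ (by omega) hB hfl hs k
  have hup : σ * cf E1 k ≤ M * (8 / 5 : ℝ) ^ k := by
    have := hcf k
    calc σ * cf E1 k ≤ |σ * cf E1 k| := le_abs_self _
      _ = |cf E1 k| := by rw [abs_mul, hσ, one_mul]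
      _ ≤ _ := this
  have hk1 : 2 * Real.log Z ≤ k := Nat.le_ceil _
  have hk2 : (k : ℝ) ≤ 2 * Real.log Z + 1 := (Nat.ceil_lt_add_one (by linarith)).le
  have h2k : Z ^ (4 / 3 : ℝ) ≤ 2 ^ k := by
    rw [← Real.rpow_natCast 2 k, Real.rpow_def_of_pos hZ0, Real.rpow_def_of_pos (by norm_num)]
    apply Real.exp_le_exp.2
    have h5 : (2 : ℝ) / 3 ≤ Real.log 2 := by
      have := Real.log_two_gt_d9; linarith
    nlinarith
  have h8k : (8 : ℝ) ^ (k + 1) ≤ 64 * Z ^ (5 : ℝ) := by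
    rw [← Real.rpow_natCast 8 (k + 1), Real.rpow_def_of_pos hZ0, Real.rpow_def_of_pos (by norm_num)]
    have e8 : Real.log 8 = 3 * Real.log 2 := by
      rw [show (8 : ℝ) = 2 ^ (3 : ℕ) by norm_num, Real.log_pow]; norm_num
    have e64 : (64 : ℝ) = Real.exp (2 * Real.log 8) := by
      rw [e8, show (2 : ℝ) * (3 * Real.log 2) = Real.log (2 ^ (6 : ℕ)) by
        rw [Real.log_pow]; push_cast; ring, Real.exp_log (by norm_num)]
      norm_num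
    rw [e64, ← Real.exp_add]
    apply Real.exp_le_exp.2
    push_cast
    have h5 : Real.log 8 ≤ 5 / 2 := by
      rw [e8]
      have := Real.log_two_lt_d9; linarith
    have h6 : 0 ≤ Real.log 8 := Real.log_nonneg (by norm_num)
    nlinarith [mul_nonneg hlZ (sub_nonneg.2 h5)]
  have hBZ : (Z ^ (40 : ℕ)) ^ (-(1 / 8) : ℝ) * Z ^ (5 : ℝ) = 1 := by
    rw [← Real.rpow_natCast Z 40, ← Real.rpow_mul hZ0.le, ← Real.rpow_add hZ0]
    norm_num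
  have h64 : (Z ^ (40 : ℕ)) ^ (-(1 / 8) : ℝ) * 8 ^ (k + 1) ≤ 64 := by
    calc (Z ^ (40 : ℕ)) ^ (-(1 / 8) : ℝ) * 8 ^ (k + 1)
        ≤ (Z ^ (40 : ℕ)) ^ (-(1 / 8) : ℝ) * (64 * Z ^ (5 : ℝ)) := by gcongr
      _ = 64 * ((Z ^ (40 : ℕ)) ^ (-(1 / 8) : ℝ) * Z ^ (5 : ℝ)) := by ring
      _ = 64 := by rw [hBZ, mul_one]
  have hM2 : M * (8 / 5 : ℝ) ^ k ≤ 1 / 2 * 2 ^ k := by
    have e : (8 / 5 : ℝ) ^ k = (4 / 5) ^ k * 2 ^ k := by
      rw [← mul_pow]; norm_num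
    rw [e, ← mul_assoc]
    gcongr
  have hfin : 1 / 2 * (2 : ℝ) ^ k ≤ Cc * (2 * Z + 64) := by
    have h3 : Cc * ((⌈Z⌉₊ : ℝ) + (Z ^ (40 : ℕ)) ^ (-(1 / 8) : ℝ) * 8 ^ (k + 1)) ≤
        Cc * (2 * Z + 64) := by gcongr
    linarith
  have h4 : Z ^ (4 / 3 : ℝ) = Z * Z ^ (1 / 3 : ℝ) := by
    rw [← Real.rpow_one_add' hZ0.le (by norm_num)]
    norm_num
  rw [h4] at h2k
  have h5 : Z * (2 * Cc * 66) < Z * Z ^ (1 / 3 : ℝ) := by gcongr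
  nlinarith

/-- **near-zeros of `ψ(N) - N`, localized** -/
theorem near_zero : ∃ Z₀ : ℝ, ∀ Z : ℝ, Z₀ ≤ Z → ∃ N : ℕ, Z ≤ N ∧ (N : ℝ) ≤ Z ^ (40 : ℕ) ∧
    |∑ n ∈ Finset.Icc 1 N, Λ n - N| ≤ (N : ℝ) ^ (3 / 4 : ℝ) := by
  obtain ⟨Z₀, h⟩ := near_zero_en
  refine ⟨Z₀, fun Z hZ => ?_⟩
  obtain ⟨N, h1, h2, h3⟩ := h Z hZ
  refine ⟨N, h1, h2, ?_⟩
  unfold en at h3
  rw [Finset.sum_sub_distrib] at h3
  simpa using h3

end Pool.Agent.NZ
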